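import Pool.Agent.Helper17.CR.Stmts

/-! Module RED of MP_c38931_co: reduction to a correlation whose square has 2-power order. -/

set_option autoImplicit false

namespace Pool.Agent.Helper64.CR

open Finset Pool.Agent.Helper17.CR

universe u

theorem red_iter {X : Type u} [Fintype X] [DecidableEq X] {lam k : ℕ} {θ : X → Finset X}
    {σ : Equiv.Perm X} (h : Cor lam k θ σ) (j : ℕ) (z x : X) :
    z ∈ θ x ↔ (σ ^ j) z ∈ θ ((σ ^ j) x) := by
  induction j with
  | zero => simp
  | succ j ih =>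
    rw [ih, h.cor, h.cor, pow_succ', Equiv.Perm.mul_apply, Equiv.Perm.mul_apply]

theorem red_comm {X : Type u} (σ g : Equiv.Perm X) (h : ∀ x, σ (g x) = g (σ x)) (j : ℕ) (x : X) :
    (σ ^ j) (g x) = g ((σ ^ j) x) := by
  induction j with
  | zero => simp
  | succ j ih => rw [pow_succ', Equiv.Perm.mul_apply, Equiv.Perm.mul_apply, ih, h]

theorem st_RED : ST_RED.{u} := by
  intro X _ _ lam k θ σ h
  obtain ⟨c, m, hm, hcm⟩ := Nat.exists_eq_two_pow_mul_odd (orderOf_pos σ).ne'
  obtain ⟨j, hj⟩ := hm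
  refine ⟨fun y => θ ((σ ^ j) y), σ ^ (2 * j + 1), c, ⟨?_, ?_, ?_⟩, ?_, ?_⟩
  · intro y; exact h.card _
  · intro x x' hx
    rw [← h.pair x x' hx]
    refine Finset.card_bij (fun y _ => (σ ^ j) y) ?_ ?_ ?_
    · intro y hy
      rw [mem_filter] at hy ⊢
      exact ⟨mem_univ _, hy.2⟩
    · intro y _ z _ hyz
      exact (σ ^ j).injective hyz
    · intro y hy
      refine ⟨(σ ^ j).symm y, ?_, by simp⟩
      rw [mem_filter] at hy ⊢
      simpa using hy.2
  · intro x y
    rw [h.cor, red_iter h j]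
    have : (σ ^ (2 * j + 1)) y = (σ ^ j) (σ ((σ ^ j) y)) := by
      have e : 2 * j + 1 = j + (1 + j) := by ring
      rw [e, pow_add, pow_add, pow_one, Equiv.Perm.mul_apply, Equiv.Perm.mul_apply]
    rw [this]
  · rw [← pow_mul, ← hj, mul_comm, ← hcm, pow_orderOf_eq_one]
  · intro g hg hc x
    simp only
    rw [red_comm σ g hc, hg]

end Pool.Agent.Helper64.CR
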